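import Pool.Agent.helper19.AR.Main

namespace Pool.Agent.Results.MP_962e14_co.LargeN

open Pool.Agent.helper19.AR

/-- **Aharoni's rainbow cycle conjecture holds for all large `n`.** For every `r ≥ 1` and every
`n ≥ (10 r) ^ 138`: if `G` is a simple graph on `n` vertices whose edges are coloured with `n`
colours, every colour class having at least `r` edges, then `G` has a rainbow cycle of length at
most `⌈n / r⌉`. -/
theorem result (r : ℕ) (hr : 1 ≤ r) (n : ℕ) (hn : (10 * r) ^ 138 ≤ n)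
    (G : SimpleGraph (Fin n)) (c : Sym2 (Fin n) → Fin n)
    (h : ∀ a : Fin n, r ≤ {e | e ∈ G.edgeSet ∧ c e = a}.ncard) :
    ∃ (v : Fin n) (p : G.Walk v v),
      p.IsCycle ∧ (p.edges.map c).Nodup ∧ p.length ≤ ⌈(n : ℚ) / (r : ℚ)⌉₊ := by
  rcases Nat.lt_or_ge 1 r with h1 | h1
  · by_contra hno
    obtain ⟨S, hG, hS, hV⟩ := TR r n G c h ⌈(n : ℚ) / (r : ℚ)⌉₊ hno
    refine MAIN r h1 (Fin n) (Fin n) S _ (by rw [hV]; exact hn) ⟨hG, hS, ?_⟩
    rw [hV]
    have h2 : (n : ℚ) / (r : ℚ) ≤ (⌈(n : ℚ) / (r : ℚ)⌉₊ : ℚ) := Nat.le_ceil _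
    have hr0 : (0 : ℚ) < (r : ℚ) := by exact_mod_cast (by omega : 0 < r)
    rw [div_le_iff₀ hr0] at h2
    have h3 : (n : ℚ) ≤ ((r * ⌈(n : ℚ) / (r : ℚ)⌉₊ : ℕ) : ℚ) := by
      push_cast
      rw [mul_comm]
      exact h2
    exact_mod_cast h3
  · have hr1 : r = 1 := by omega
    subst hr1
    have hn1 : 1 ≤ n := le_trans (Nat.one_le_pow _ _ (by norm_num)) hn
    by_contra hno
    obtain ⟨S, hG, hS, hV⟩ := TR 1 n G c h ⌈(n : ℚ) / ((1 : ℕ) : ℚ)⌉₊ hno
    have hc : ⌈(n : ℚ) / ((1 : ℕ) : ℚ)⌉₊ = n := by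
      simp
    rw [hc] at hS
    have hne : S.V.Nonempty := by
      rw [← Finset.card_pos, hV]
      omega
    have h4 := hS S.V (Finset.Subset.refl _) hne (le_of_eq hV)
    have h5 : S.C ⊆ col S S.V := by
      intro a ha
      obtain ⟨h6, h7⟩ := hG.2 a ha
      have h8 : (S.E a).Nonempty := by
        rw [← Finset.card_pos, h6]
        exact Nat.one_pos
      obtain ⟨e, he⟩ := h8
      exact (mem_col S S.V a).mpr ⟨ha, e, he, (h7 e he).2⟩
    have h9 := Finset.card_le_card h5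
    rw [hG.1] at h9
    exact absurd (lt_of_le_of_lt h9 h4) (lt_irrefl _)

end Pool.Agent.Results.MP_962e14_co.LargeN
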